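import Pool.Agent.Q55.Liou.Z

/-!
# Both signs of the bias-corrected Liouville sum in every window `[x, x log x]`, and one-sided bounds

Let `L(y) = ∑_{n ≤ y} λ(n)`, `λ` the Liouville function, `D(y) = L(y) - √y / ζ(1/2)`,
`F(y) = √y (log log log y)^{5/4}`, `s = 1` or `s = -1`.

0. `ζ(1/2)` is real and negative.
1. (unconditional) For some `c > 0`, all large `x` and both `s` the window `[x, x log x]` contains `y` with
   `s D(y) ≥ c √y`; in particular it contains `y` with `L(y) ≤ -(1/|ζ(1/2)| + c) √y`.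
2. (unconditional) For some `c > 0`, all large `x` and both `s`, the integral of `max(s D(u), 0) u^{-3/2}` over
   `[x, x log x]` is at least `c`; for `0 < δ ≤ 1` and some `c > 0`, its integral over `[x^{1-δ}, x]` is at least
   `c log x`, for all large `x` and both `s`.
3. If `ζ` has a zero `ρ` with `Re ρ > 1/2`, then for some `c > 0`, all large `x` and both `s` the window
   `[x, x log x]` contains `y` with `s L(y) ≥ c y^{Re ρ}`; if `ζ` has a multiple zero on the critical line, it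
   contains `y` with `s L(y) ≥ c √y log y`.
4. Let `0 < δ ≤ 1`.  If for every `ε > 0` there are arbitrarily large `x` such that the mean
   `∫ max(s L(u), 0) u^{-3/2} du` over `[x^{1-δ}, x]` is at most `ε (log x)²`, then the Riemann Hypothesis holds and
   every zero in the critical strip is simple.
5. The same conclusion, if for every `ε > 0` there are arbitrarily large `x` with `s L(y) ≤ ε √y log y` on the
   window `[x, x log x]`; in particular if `s L(y) ≤ K F(y)` on the window for one `K` and arbitrarily large `x`.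
-/

set_option autoImplicit false

open Filter Topology Set

namespace Pool.Agent.Results.MP_a499ba_nt.BothSignsLiouville

/-- `L(y) = ∑_{n ≤ y} λ(n)`, `λ(n) = (-1)^{Ω(n)}`. -/
noncomputable def L (y : ℝ) : ℝ := ∑ n ∈ Finset.Icc 1 ⌊y⌋₊, (-1 : ℝ) ^ ArithmeticFunction.cardFactors n

/-- `D(y) = L(y) - √y / ζ(1/2)` (`ζ(1/2)` is real). -/
noncomputable def D (y : ℝ) : ℝ := L y - y ^ (1 / 2 : ℝ) / (riemannZeta (1 / 2)).re

/-- `F(y) = √y (log log log y)^{5/4}`. -/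
noncomputable def F (y : ℝ) : ℝ := y ^ (1 / 2 : ℝ) * Real.log (Real.log (Real.log y)) ^ (5 / 4 : ℝ)

/-- the mean of the positive part of `s L` -/
noncomputable def oneMean (δ s x : ℝ) : ℝ := ∫ u in (x ^ (1 - δ))..x, max (s * L u) 0 / u ^ (3 / 2 : ℝ)

/-- every zero of `ζ` in the critical strip is on the critical line and simple -/
def RHSimple : Prop :=
  ∀ ρ : ℂ, riemannZeta ρ = 0 → 0 < ρ.re → ρ.re < 1 → ρ.re = 1 / 2 ∧ deriv riemannZeta ρ ≠ 0

theorem signs (ρ : ℂ) (hz : riemannZeta ρ = 0) (h0 : 1 / 2 < ρ.re) :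
    ∃ c : ℝ, 0 < c ∧ ∀ᶠ x : ℝ in atTop, ∀ s : ℝ, s = 1 ∨ s = -1 →
      ∃ y ∈ Icc x (x * Real.log x), c * y ^ ρ.re ≤ s * L y := by
  have h1 : ρ.re < 1 := by
    by_contra h
    exact riemannZeta_ne_zero_of_one_le_re (not_lt.1 h) hz
  have hcore := Q55.Liou.core1 ρ hz h0 h1
  have hw := Q55.Liou.win_sup ρ.re h0.le h1.le (fun _ => 1) (Eventually.of_forall fun _ => le_rfl) hcore
  have h := Q55.Liou.sup_log (β := ρ.re) (Lf := fun _ => 1) hw
  obtain ⟨c, hc, h⟩ := h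
  simp only [one_mul] at h
  exact ⟨c, hc, h⟩

theorem signs2 (ρ : ℂ) (hz : riemannZeta ρ = 0) (hz' : deriv riemannZeta ρ = 0) (h0 : ρ.re = 1 / 2) :
    ∃ c : ℝ, 0 < c ∧ ∀ᶠ x : ℝ in atTop, ∀ s : ℝ, s = 1 ∨ s = -1 →
      ∃ y ∈ Icc x (x * Real.log x), c * (y ^ (1 / 2 : ℝ) * Real.log y) ≤ s * L y := by
  have hcore := Q55.Liou.core2 ρ hz hz' h0
  have hw := Q55.Liou.win_sup ρ.re h0.ge (by linarith) (fun t => t) (eventually_ge_atTop 1) hcore
  have h := Q55.Liou.sup_log (β := ρ.re) (Lf := fun t => t) hw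
  obtain ⟨c, hc, h⟩ := h
  refine ⟨c / 2, by positivity, ?_⟩
  filter_upwards [h, eventually_ge_atTop (Real.exp 1)] with x hx hx1 s hs
  have hx0 : 0 < x := (Real.exp_pos 1).trans_le hx1
  have hl1 : 1 ≤ Real.log x := by rwa [Real.le_log_iff_exp_le hx0]
  obtain ⟨y, hy, hy2⟩ := hx s hs
  refine ⟨y, hy, ?_⟩
  rw [h0] at hy2
  have hy0 : 0 < y := hx0.trans_le hy.1
  have h5 : Real.log y ≤ 2 * H313.TK.ct (Real.log x) := by
    have h6 : Real.log y ≤ Real.log x + Real.log (Real.log x) := by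
      rw [← Real.log_mul hx0.ne' (by linarith)]
      exact Real.log_le_log hy0 hy.2
    have h7 : Real.log (Real.log x) ≤ Real.log x := (Real.log_le_sub_one_of_pos (by linarith)).trans (by linarith)
    have h8 : 0 ≤ Real.log (Real.log x) := Real.log_nonneg hl1
    unfold H313.TK.ct
    linarith
  have h6 : 0 < y ^ (1 / 2 : ℝ) := Real.rpow_pos_of_pos hy0 _
  calc c / 2 * (y ^ (1 / 2 : ℝ) * Real.log y) ≤ c / 2 * (y ^ (1 / 2 : ℝ) * (2 * H313.TK.ct (Real.log x))) :=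
        mul_le_mul_of_nonneg_left (mul_le_mul_of_nonneg_left h5 h6.le) (by positivity)
    _ = c * (H313.TK.ct (Real.log x) * y ^ (1 / 2 : ℝ)) := by ring
    _ ≤ _ := hy2

/-- One-sided `o(√y log y)` on arbitrarily far windows gives RH and simplicity. -/
theorem cost {s : ℝ} (hs : s = 1 ∨ s = -1)
    (h : ∀ ε : ℝ, 0 < ε → ∃ᶠ x : ℝ in atTop, ∀ y ∈ Icc x (x * Real.log x), s * L y ≤ ε * (y ^ (1 / 2 : ℝ) * Real.log y))
    (ρ : ℂ) (hz : riemannZeta ρ = 0) (h0 : 0 < ρ.re) (h1 : ρ.re < 1) :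
    ρ.re = 1 / 2 ∧ deriv riemannZeta ρ ≠ 0 := by
  -- no zero to the right of the critical line
  have key : ∀ ρ : ℂ, riemannZeta ρ = 0 → 1 / 2 < ρ.re → ρ.re < 1 → False := by
    intro ρ hz h0 h1
    obtain ⟨c, hc, hev⟩ := signs ρ hz h0
    set a : ℝ := ρ.re - 1 / 2 with ha
    have ha0 : 0 < a := by rw [ha]; linarith
    have hlo : ∀ᶠ y : ℝ in atTop, Real.log y < c * y ^ a := by
      have h2 := (isLittleO_log_rpow_atTop ha0).bound (show 0 < c / 2 by linarith)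
      filter_upwards [h2, eventually_gt_atTop 1] with y hy hy1
      have hy0 : 0 < y := by linarith
      rw [Real.norm_of_nonneg (Real.log_nonneg hy1.le), Real.norm_of_nonneg (by positivity)] at hy
      have : 0 < y ^ a := by positivity
      nlinarith
    obtain ⟨Y, hY⟩ := eventually_atTop.mp hlo
    obtain ⟨x, hx1, hx2, hx3⟩ := ((h 1 one_pos).and_eventually (hev.and (eventually_ge_atTop (max Y 2)))).exists
    obtain ⟨y, hy, hy2⟩ := hx2 s hs
    have h4 := hx1 y hy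
    have hYy : Y ≤ y := (le_max_left _ _).trans (hx3.trans hy.1)
    have hy1 : 2 ≤ y := (le_max_right _ _).trans (hx3.trans hy.1)
    have hy0 : 0 < y := by linarith
    have h5 := hY y hYy
    have h6 : y ^ ρ.re = y ^ (1 / 2 : ℝ) * y ^ a := by
      rw [← Real.rpow_add hy0]; congr 1; rw [ha]; ring
    have h7 : 0 < y ^ (1 / 2 : ℝ) := by positivity
    rw [h6] at hy2
    have h8 : y ^ (1 / 2 : ℝ) * Real.log y < y ^ (1 / 2 : ℝ) * (c * y ^ a) := mul_lt_mul_of_pos_left h5 h7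
    nlinarith
  have hre : ρ.re = 1 / 2 := by
    rcases lt_trichotomy ρ.re (1 / 2) with h2 | h2 | h2
    · exfalso
      exact key (1 - ρ) (H313.TK.refl_zero ρ hz h0 h1) (by simp; linarith) (by simp; linarith)
    · exact h2
    · exact (key ρ hz h2 h1).elim
  refine ⟨hre, fun hz' => ?_⟩
  obtain ⟨c, hc, hev⟩ := signs2 ρ hz hz' hre
  obtain ⟨x, hx1, hx2, hx3⟩ :=
    ((h (c / 2) (by linarith)).and_eventually (hev.and (eventually_ge_atTop (2 : ℝ)))).exists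
  obtain ⟨y, hy, hy2⟩ := hx2 s hs
  have h4 := hx1 y hy
  have hy1 : 2 ≤ y := hx3.trans hy.1
  have hy0 : 0 < y := by linarith
  have h7 : 0 < y ^ (1 / 2 : ℝ) := by positivity
  have h8 : 0 < Real.log y := Real.log_pos (by linarith)
  have h9 : 0 < y ^ (1 / 2 : ℝ) * Real.log y := by positivity
  nlinarith

theorem F_small (K ε : ℝ) (hε : 0 < ε) : ∀ᶠ y : ℝ in atTop, K * F y ≤ ε * (y ^ (1 / 2 : ℝ) * Real.log y) := by
  -- `(log log log y)^{5/4} = o(log y)`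
  have h1 : Tendsto (fun y : ℝ => Real.log (Real.log y)) atTop atTop :=
    Real.tendsto_log_atTop.comp Real.tendsto_log_atTop
  have h2 := (isLittleO_log_rpow_rpow_atTop (s := 1) (5 / 4) one_pos).bound
    (show 0 < ε / (|K| + 1) by positivity)
  have h3 := h1.eventually h2
  have h4 := h1.eventually (eventually_ge_atTop (Real.exp 1))
  filter_upwards [h3, h4, eventually_ge_atTop 2] with y hy hy2 hy3
  have hy0 : 0 < y := by linarith
  have hL0 : 0 < Real.log y := Real.log_pos (by linarith)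
  have hLL : 0 < Real.log (Real.log y) := (Real.exp_pos 1).trans_le hy2
  have hLLL : 0 ≤ Real.log (Real.log (Real.log y)) := by
    apply Real.log_nonneg
    exact (Real.one_le_exp zero_le_one).trans hy2
  rw [Real.norm_of_nonneg (by positivity), Real.norm_of_nonneg (by positivity), Real.rpow_one] at hy
  have h5 : Real.log (Real.log y) ≤ Real.log y := (Real.log_le_sub_one_of_pos hL0).trans (by linarith)
  have h6 : 0 < y ^ (1 / 2 : ℝ) := by positivity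
  have h7 : 0 ≤ Real.log (Real.log (Real.log y)) ^ (5 / 4 : ℝ) := by positivity
  have h8 : (|K| + 1) * Real.log (Real.log (Real.log y)) ^ (5 / 4 : ℝ) ≤ ε * Real.log y := by
    have hp : 0 < |K| + 1 := by positivity
    calc (|K| + 1) * Real.log (Real.log (Real.log y)) ^ (5 / 4 : ℝ)
        ≤ (|K| + 1) * (ε / (|K| + 1) * Real.log (Real.log y)) := by gcongr
      _ = ε * Real.log (Real.log y) := by field_simp
      _ ≤ ε * Real.log y := by gcongr
  have h9 : K * Real.log (Real.log (Real.log y)) ^ (5 / 4 : ℝ) ≤ ε * Real.log y := by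
    refine le_trans ?_ h8
    exact mul_le_mul_of_nonneg_right ((le_abs_self K).trans (by linarith)) h7
  unfold F
  calc K * (y ^ (1 / 2 : ℝ) * Real.log (Real.log (Real.log y)) ^ (5 / 4 : ℝ))
      = y ^ (1 / 2 : ℝ) * (K * Real.log (Real.log (Real.log y)) ^ (5 / 4 : ℝ)) := by ring
    _ ≤ y ^ (1 / 2 : ℝ) * (ε * Real.log y) := by gcongr
    _ = _ := by ring

/-- every window contains large negative values of `L` -/
theorem negL (h : ∃ c : ℝ, 0 < c ∧ ∀ᶠ x : ℝ in atTop, ∀ s : ℝ, s = 1 ∨ s = -1 →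
      ∃ y ∈ Icc x (x * Real.log x), c * y ^ (1 / 2 : ℝ) ≤ s * D y) :
    ∃ c : ℝ, 0 < c ∧ ∀ᶠ x : ℝ in atTop,
      ∃ y ∈ Icc x (x * Real.log x), L y ≤ -(1 / |(riemannZeta (1 / 2)).re| + c) * y ^ (1 / 2 : ℝ) := by
  obtain ⟨c, hc, hev⟩ := h
  refine ⟨c, hc, ?_⟩
  filter_upwards [hev] with x hx
  obtain ⟨y, hy, h1⟩ := hx (-1) (Or.inr rfl)
  refine ⟨y, hy, ?_⟩
  have hz := Q55.Liou.zeta_half_neg
  rw [abs_of_neg hz]
  unfold D at h1
  have e : 1 / -(riemannZeta (1 / 2)).re = -(1 / (riemannZeta (1 / 2)).re) := by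
    rw [div_neg]
  rw [e]
  have e2 : y ^ (1 / 2 : ℝ) / (riemannZeta (1 / 2)).re = 1 / (riemannZeta (1 / 2)).re * y ^ (1 / 2 : ℝ) := by ring
  rw [e2] at h1
  linarith

theorem result :
    ((riemannZeta (1 / 2)).im = 0 ∧ (riemannZeta (1 / 2)).re < 0) ∧
    (∃ c : ℝ, 0 < c ∧ ∀ᶠ x : ℝ in atTop, ∀ s : ℝ, s = 1 ∨ s = -1 →
      ∃ y ∈ Icc x (x * Real.log x), c * y ^ (1 / 2 : ℝ) ≤ s * D y) ∧
    (∃ c : ℝ, 0 < c ∧ ∀ᶠ x : ℝ in atTop,
      ∃ y ∈ Icc x (x * Real.log x), L y ≤ -(1 / |(riemannZeta (1 / 2)).re| + c) * y ^ (1 / 2 : ℝ)) ∧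
    (∃ c : ℝ, 0 < c ∧ ∀ᶠ x : ℝ in atTop, ∀ s : ℝ, s = 1 ∨ s = -1 →
      c ≤ ∫ u in x..(x * Real.log x), max (s * D u) 0 / u ^ (3 / 2 : ℝ)) ∧
    (∀ δ : ℝ, 0 < δ → δ ≤ 1 → ∃ c : ℝ, 0 < c ∧ ∀ᶠ x : ℝ in atTop, ∀ s : ℝ, s = 1 ∨ s = -1 →
      c * Real.log x ≤ ∫ u in (x ^ (1 - δ))..x, max (s * D u) 0 / u ^ (3 / 2 : ℝ)) ∧
    (∀ ρ : ℂ, riemannZeta ρ = 0 → 1 / 2 < ρ.re →
      ∃ c : ℝ, 0 < c ∧ ∀ᶠ x : ℝ in atTop, ∀ s : ℝ, s = 1 ∨ s = -1 →
        ∃ y ∈ Icc x (x * Real.log x), c * y ^ ρ.re ≤ s * L y) ∧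
    (∀ ρ : ℂ, riemannZeta ρ = 0 → deriv riemannZeta ρ = 0 → ρ.re = 1 / 2 →
      ∃ c : ℝ, 0 < c ∧ ∀ᶠ x : ℝ in atTop, ∀ s : ℝ, s = 1 ∨ s = -1 →
        ∃ y ∈ Icc x (x * Real.log x), c * (y ^ (1 / 2 : ℝ) * Real.log y) ≤ s * L y) ∧
    (∀ δ s : ℝ, 0 < δ → δ ≤ 1 → (s = 1 ∨ s = -1) →
      (∀ ε : ℝ, 0 < ε → ∃ᶠ x : ℝ in atTop, oneMean δ s x ≤ ε * Real.log x ^ 2) → RHSimple) ∧
    (∀ s : ℝ, (s = 1 ∨ s = -1) →
      (∀ ε : ℝ, 0 < ε → ∃ᶠ x : ℝ in atTop, ∀ y ∈ Icc x (x * Real.log x),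
        s * L y ≤ ε * (y ^ (1 / 2 : ℝ) * Real.log y)) → RHSimple) ∧
    (∀ s K : ℝ, (s = 1 ∨ s = -1) →
      (∃ᶠ x : ℝ in atTop, ∀ y ∈ Icc x (x * Real.log x), s * L y ≤ K * F y) → RHSimple) := by
  refine ⟨⟨Q55.Liou.zeta_half_im, Q55.Liou.zeta_half_neg⟩, Q55.Liou.Dd.supD, negL Q55.Liou.Dd.supD,
    Q55.Liou.Dd.winMean, fun δ h0 h1 => Q55.Liou.Dd.longMean h0 h1,
    fun ρ hz h => signs ρ hz h, fun ρ hz hz' h => signs2 ρ hz hz' h, ?_, ?_, ?_⟩
  · intro δ s hδ _ hs h ρ hz h0 h1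
    exact Q55.Liou.finalB hδ s hs h ρ hz h0 h1
  · intro s hs h ρ hz h0 h1
    exact cost hs h ρ hz h0 h1
  · intro s K hs h ρ hz h0 h1
    refine cost hs (fun ε hε => ?_) ρ hz h0 h1
    obtain ⟨Y, hY⟩ := eventually_atTop.1 (F_small K ε hε)
    refine (h.and_eventually (eventually_ge_atTop Y)).mono fun x hx y hy => ?_
    exact (hx.1 y hy).trans (hY y (hx.2.trans hy.1))

end Pool.Agent.Results.MP_a499ba_nt.BothSignsLiouville
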