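import Pool.Agent.Q32.DS.B

/-!
# `M` and `L` on a discrete set of scales `x/h`, `h ≤ x^δ`, for EVERY large `x`

Let `Θ` be the supremum of the real parts of the zeros of `ζ` in the critical strip and `0 < δ ≤ 1`.

1. `log (max_{h ≤ x^δ} |M(x/h)|) / log x → Θ` as the real number `x` tends to infinity, and
   `max (1/2, log (max_{h ≤ x^δ} |L(x/h)|) / log x) → Θ`.
2. For `S = M` and for `S = L`: the Riemann hypothesis is equivalent to the bound `|S(x/h)| ≤ x^{1/2+ε}` for all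
   `h ≤ x^δ`, at arbitrarily large `x` (one sparse sequence of `x` for each `ε`), and to the same for all large `x`.
3. If for one `B` there are arbitrarily large `x` such that `|S(x/h)| ≤ B F(x)` for all `h ≤ x^δ`, then the Riemann
   hypothesis holds.
-/

set_option autoImplicit false

open Filter Topology

namespace Pool.Agent.Results.MP_a499ba_nt.DiscreteScales

/-- `M(y) = ∑_{n ≤ y} μ(n)`. -/
noncomputable def M (y : ℝ) : ℝ := ∑ n ∈ Finset.Icc 1 ⌊y⌋₊, ((ArithmeticFunction.moebius n : ℤ) : ℝ)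

/-- `L(y) = ∑_{n ≤ y} λ(n)`, `λ(n) = (-1)^{Ω(n)}`. -/
noncomputable def L (y : ℝ) : ℝ := ∑ n ∈ Finset.Icc 1 ⌊y⌋₊, (-1 : ℝ) ^ ArithmeticFunction.cardFactors n

/-- `F(y) = √y (log log log y)^{5/4}`. -/
noncomputable def F (y : ℝ) : ℝ := y ^ (1 / 2 : ℝ) * Real.log (Real.log (Real.log y)) ^ (5 / 4 : ℝ)

/-- The supremum of the real parts of the zeros of `ζ` in the critical strip. -/
noncomputable def Theta : ℝ := sSup (Complex.re '' {ρ : ℂ | riemannZeta ρ = 0 ∧ 0 < ρ.re ∧ ρ.re < 1})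

/-- The maximum of `|S(x/h)|` over the integers `1 ≤ h ≤ x^δ`. -/
noncomputable def maxScales (S : ℝ → ℝ) (δ x : ℝ) : ℝ :=
  sSup {t : ℝ | ∃ h : ℕ, 1 ≤ h ∧ (h : ℝ) ≤ x ^ δ ∧ t = |S (x / h)|}

theorem lower {S : ℝ → ℝ} (hS : S = M ∨ S = L) {δ ε : ℝ} (hδ : 0 < δ) (hδ1 : δ ≤ 1) (hε : 0 < ε)
    (hΘ : 1 / 2 < Theta) :
    ∀ᶠ x : ℝ in atTop, ∃ h : ℕ, 1 ≤ h ∧ (h : ℝ) ≤ x ^ δ ∧ x ^ (Theta - ε) ≤ |S (x / h)| := by
  rcases hS with rfl | rfl
  · exact Pool.Agent.Q32.DS.mertens_real hδ hδ1 hε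
  · exact Pool.Agent.Q32.DS.liouville_lower hδ hδ1 hε hΘ

theorem upper {S : ℝ → ℝ} (hS : S = M ∨ S = L) {δ ε : ℝ} (hδ1 : δ ≤ 1) (hε : 0 < ε) :
    ∀ᶠ x : ℝ in atTop, ∀ h : ℕ, 1 ≤ h → (h : ℝ) ≤ x ^ δ → |S (x / h)| ≤ x ^ (Theta + ε) := by
  have hΘ1 := Pool.Agent.H295R2.half_le_zetaSup
  obtain ⟨σ, hσ0, hσ, C, hC0, hC⟩ : ∃ σ : ℝ, 0 ≤ σ ∧ σ ≤ Theta + ε / 2 ∧ ∃ C > 0, ∀ y : ℝ, 1 ≤ y → |S y| ≤ C * y ^ σ := by
    rcases hS with rfl | rfl
    · obtain ⟨σ, -, h2, h3, -, C, hC0, hC⟩ := Pool.Agent.H295R2.mertens_sup (e := ε / 2) (by linarith)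
      exact ⟨σ, by linarith, h2, C, hC0, hC⟩
    · obtain ⟨σ, -, h2, h3, C, hC0, hC⟩ := Pool.Agent.Q32.DS.liouville_sup (e := ε / 2) (by linarith)
      exact ⟨σ, by linarith, h2, C, hC0, fun y hy => hC y (by linarith)⟩
  filter_upwards [(tendsto_rpow_atTop (show 0 < ε / 2 by linarith)).eventually_ge_atTop C,
    eventually_ge_atTop (1 : ℝ)] with x h1 hx h hh hh2
  have hx0 : (0 : ℝ) < x := by linarith
  have hh0 : (1 : ℝ) ≤ h := by exact_mod_cast hh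
  have hhx : (h : ℝ) ≤ x := hh2.trans (by
    calc x ^ δ ≤ x ^ (1 : ℝ) := Real.rpow_le_rpow_of_exponent_le hx hδ1
      _ = x := Real.rpow_one x)
  calc |S (x / h)| ≤ C * (x / h) ^ σ := hC _ (by rw [one_le_div (by linarith)]; exact hhx)
    _ ≤ x ^ (ε / 2) * x ^ σ := by
        gcongr
        exact div_le_self hx0.le hh0
    _ = x ^ (ε / 2 + σ) := by rw [← Real.rpow_add hx0]
    _ ≤ x ^ (Theta + ε) := Real.rpow_le_rpow_of_exponent_le hx (by linarith)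

/-- from one frequent bound to RH -/
theorem RH_of_freq {S : ℝ → ℝ} (hS : S = M ∨ S = L) {δ : ℝ} (hδ : 0 < δ) (hδ1 : δ ≤ 1)
    (h : ∀ ε : ℝ, 0 < ε → ∃ᶠ x : ℝ in atTop, ∀ h : ℕ, 1 ≤ h → (h : ℝ) ≤ x ^ δ → |S (x / h)| ≤ x ^ (1 / 2 + ε)) :
    RiemannHypothesis := by
  rw [Pool.Agent.Q32.DS.RH_iff]
  by_contra hcon
  rw [not_le] at hcon
  have hcon' : 1 / 2 < Theta := hcon
  obtain ⟨x, h1, h2, h3⟩ := ((h ((Theta - 1 / 2) / 4) (by linarith)).and_eventually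
    ((lower hS hδ hδ1 (ε := (Theta - 1 / 2) / 4) (by linarith) hcon').and (eventually_ge_atTop (2 : ℝ)))).exists
  obtain ⟨k, hk1, hk2, hk3⟩ := h2
  have h4 := hk3.trans (h1 k hk1 hk2)
  rw [Real.rpow_le_rpow_left_iff (by linarith)] at h4
  linarith

theorem limits {S : ℝ → ℝ} (hS : S = M ∨ S = L) {δ : ℝ} (hδ : 0 < δ) (hδ1 : δ ≤ 1) :
    Tendsto (fun x : ℝ => max (1 / 2) (Real.log (maxScales S δ x) / Real.log x)) atTop (𝓝 Theta) := by
  have hΘ1 : 1 / 2 ≤ Theta := Pool.Agent.H295R2.half_le_zetaSup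
  rw [Metric.tendsto_nhds]
  intro ε hε
  have hup := upper hS (δ := δ) hδ1 (ε := ε / 2) (by linarith)
  have hlo : 1 / 2 < Theta → ∀ᶠ x : ℝ in atTop, ∃ h : ℕ, 1 ≤ h ∧ (h : ℝ) ≤ x ^ δ ∧ x ^ (Theta - ε / 2) ≤ |S (x / h)| :=
    fun h => lower hS hδ hδ1 (by linarith) h
  have hlo' : ∀ᶠ x : ℝ in atTop, 1 / 2 < Theta → ∃ h : ℕ, 1 ≤ h ∧ (h : ℝ) ≤ x ^ δ ∧ x ^ (Theta - ε / 2) ≤ |S (x / h)| := by
    by_cases h : 1 / 2 < Theta
    · filter_upwards [hlo h] with x hx _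
      exact hx
    · exact Eventually.of_forall fun x h' => absurd h' h
  filter_upwards [hup, hlo', eventually_ge_atTop (2 : ℝ)] with x h1 h2 hx
  have hx1 : (1 : ℝ) ≤ x := by linarith
  have hx0 : (0 : ℝ) < x := by linarith
  have hlog : 0 < Real.log x := Real.log_pos (by linarith)
  set s : Set ℝ := {t : ℝ | ∃ h : ℕ, 1 ≤ h ∧ (h : ℝ) ≤ x ^ δ ∧ t = |S (x / h)|} with hs
  have hmem : |S (x / (1 : ℕ))| ∈ s := ⟨1, le_rfl, by simpa using Real.one_le_rpow hx1 hδ.le, rfl⟩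
  have hub : ∀ t ∈ s, t ≤ x ^ (Theta + ε / 2) := by
    rintro t ⟨h, hh1, hh2, rfl⟩
    exact h1 h hh1 hh2
  have hmax : maxScales S δ x ≤ x ^ (Theta + ε / 2) := csSup_le ⟨_, hmem⟩ hub
  have hmax0 : 0 ≤ maxScales S δ x := (abs_nonneg _).trans (le_csSup ⟨_, hub⟩ hmem)
  have hupper : Real.log (maxScales S δ x) / Real.log x ≤ Theta + ε / 2 := by
    rw [div_le_iff₀ hlog]
    rcases hmax0.eq_or_lt with h0 | h0
    · rw [← h0, Real.log_zero]
      positivity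
    · rw [← Real.log_rpow hx0]
      exact Real.log_le_log h0 hmax
  rw [Real.dist_eq, abs_lt]
  constructor
  · rcases hΘ1.eq_or_lt with h3 | h3
    · have := le_max_left (1 / 2) (Real.log (maxScales S δ x) / Real.log x)
      linarith
    · obtain ⟨h, hh1, hh2, hh3⟩ := h2 h3
      have h4 : x ^ (Theta - ε / 2) ≤ maxScales S δ x := hh3.trans (le_csSup ⟨_, hub⟩ ⟨h, hh1, hh2, rfl⟩)
      have h5 : Theta - ε / 2 ≤ Real.log (maxScales S δ x) / Real.log x := by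
        rw [le_div_iff₀ hlog, ← Real.log_rpow hx0]
        exact Real.log_le_log (by positivity) h4
      have := le_max_right (1 / 2) (Real.log (maxScales S δ x) / Real.log x)
      linarith
  · have : max (1 / 2) (Real.log (maxScales S δ x) / Real.log x) ≤ Theta + ε / 2 := max_le (by linarith) hupper
    linarith

theorem F_le (B : ℝ) {ε : ℝ} (hε : 0 < ε) : ∀ᶠ x : ℝ in atTop, B * F x ≤ x ^ (1 / 2 + ε) := by
  have h1 : ∀ᶠ x : ℝ in atTop, Real.log x ≤ x ^ (ε / 4) := by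
    have h2 := (isLittleO_log_rpow_atTop (show 0 < ε / 4 by linarith)).bound (show (0 : ℝ) < 1 by norm_num)
    filter_upwards [h2, eventually_gt_atTop 1] with y hy hy1
    have hy0 : 0 < y := by linarith
    rw [Real.norm_of_nonneg (Real.log_nonneg hy1.le), Real.norm_of_nonneg (by positivity), one_mul] at hy
    exact hy
  have t1 : Tendsto (fun x : ℝ => Real.log (Real.log (Real.log x))) atTop atTop :=
    Real.tendsto_log_atTop.comp (Real.tendsto_log_atTop.comp Real.tendsto_log_atTop)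
  have t2 : Tendsto (fun x : ℝ => Real.log (Real.log x)) atTop atTop :=
    Real.tendsto_log_atTop.comp Real.tendsto_log_atTop
  filter_upwards [h1, (tendsto_rpow_atTop (show 0 < ε / 4 by linarith)).eventually_ge_atTop |B|,
    t1.eventually_ge_atTop 1, t2.eventually_ge_atTop 1, Real.tendsto_log_atTop.eventually_ge_atTop 1,
    eventually_ge_atTop (1 : ℝ)] with x h1 h2 h3 h4 h5 hx
  have hx0 : (0 : ℝ) < x := by linarith
  have h6 : Real.log (Real.log (Real.log x)) ≤ Real.log x := by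
    have e1 : Real.log (Real.log (Real.log x)) ≤ Real.log (Real.log x) := by
      have := Real.log_le_sub_one_of_pos (show 0 < Real.log (Real.log x) by linarith)
      linarith
    have e2 : Real.log (Real.log x) ≤ Real.log x := by
      have := Real.log_le_sub_one_of_pos (show 0 < Real.log x by linarith)
      linarith
    exact e1.trans e2
  have h7 : Real.log (Real.log (Real.log x)) ^ (5 / 4 : ℝ) ≤ (x ^ (ε / 4)) ^ (5 / 4 : ℝ) := by
    apply Real.rpow_le_rpow (by linarith) (h6.trans h1) (by norm_num)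
  have h8 : 0 ≤ F x := by
    unfold F
    have : 0 ≤ Real.log (Real.log (Real.log x)) := by linarith
    positivity
  calc B * F x ≤ |B| * F x := by gcongr; exact le_abs_self B
    _ ≤ x ^ (ε / 4) * (x ^ (1 / 2 : ℝ) * (x ^ (ε / 4)) ^ (5 / 4 : ℝ)) := by
        unfold F
        gcongr
    _ = x ^ (ε / 4 + (1 / 2 + ε / 4 * (5 / 4))) := by
        rw [Real.rpow_add hx0, Real.rpow_add hx0, Real.rpow_mul hx0.le]
    _ ≤ x ^ (1 / 2 + ε) := Real.rpow_le_rpow_of_exponent_le hx (by linarith)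

/-- The exponent of `M` and of `L` on the scales `x/h`, `h ≤ x^δ`, and the Riemann hypothesis from sparse `x`. -/
theorem result (δ : ℝ) (hδ : 0 < δ) (hδ1 : δ ≤ 1) :
    Tendsto (fun x : ℝ => Real.log (maxScales M δ x) / Real.log x) atTop (𝓝 Theta) ∧
    Tendsto (fun x : ℝ => max (1 / 2) (Real.log (maxScales L δ x) / Real.log x)) atTop (𝓝 Theta) ∧
    ∀ S : ℝ → ℝ, S = M ∨ S = L →
      (RiemannHypothesis ↔ ∀ ε : ℝ, 0 < ε → ∃ᶠ x : ℝ in atTop,
        ∀ h : ℕ, 1 ≤ h → (h : ℝ) ≤ x ^ δ → |S (x / h)| ≤ x ^ (1 / 2 + ε)) ∧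
      (RiemannHypothesis ↔ ∀ ε : ℝ, 0 < ε → ∀ᶠ x : ℝ in atTop,
        ∀ h : ℕ, 1 ≤ h → (h : ℝ) ≤ x ^ δ → |S (x / h)| ≤ x ^ (1 / 2 + ε)) ∧
      (∀ B : ℝ, (∃ᶠ x : ℝ in atTop, ∀ h : ℕ, 1 ≤ h → (h : ℝ) ≤ x ^ δ → |S (x / h)| ≤ B * F x) →
        RiemannHypothesis) := by
  refine ⟨Pool.Agent.H295R2.mertens_limit hδ hδ1, limits (Or.inr rfl) hδ hδ1, fun S hS => ?_⟩
  have hall : RiemannHypothesis → ∀ ε : ℝ, 0 < ε → ∀ᶠ x : ℝ in atTop,
      ∀ h : ℕ, 1 ≤ h → (h : ℝ) ≤ x ^ δ → |S (x / h)| ≤ x ^ (1 / 2 + ε) := by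
    intro hRH ε hε
    have hT : Theta ≤ 1 / 2 := Pool.Agent.Q32.DS.RH_iff.mp hRH
    filter_upwards [upper hS (δ := δ) hδ1 hε, eventually_ge_atTop (1 : ℝ)] with x h1 hx h hh1 hh2
    exact (h1 h hh1 hh2).trans (Real.rpow_le_rpow_of_exponent_le hx (by linarith))
  refine ⟨⟨fun hRH ε hε => (hall hRH ε hε).frequently, RH_of_freq hS hδ hδ1⟩,
    ⟨hall, fun h => RH_of_freq hS hδ hδ1 fun ε hε => (h ε hε).frequently⟩, fun B hB => ?_⟩
  refine RH_of_freq hS hδ hδ1 fun ε hε => ?_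
  refine (hB.and_eventually (F_le B hε)).mono fun x hx h hh1 hh2 => ?_
  exact (hx.1 h hh1 hh2).trans hx.2

end Pool.Agent.Results.MP_a499ba_nt.DiscreteScales
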