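import Pool.Agent.H313R3.TK.J
import Pool.Agent.H295R2.M

/-!
# Both signs of `M(x)` in every window `[x, x log x]`, and what Gonek's conjecture costs on a single window

Let `M(y) = ∑_{n ≤ y} μ(n)`, `F(y) = √y (log log log y)^{5/4}`, `s = 1` or `s = -1`, and let `Θ` be the supremum of
the real parts of the zeros of `ζ` in the critical strip.

1. For a zero `ρ` with `1/2 ≤ Re ρ < 1` there is `c > 0` such that for all large `x` the window `[x, x log x]`
   contains `y` with `s M(y) ≥ c y^{Re ρ}` (for both `s`), and `s M(y) ≥ c y^{Re ρ} log y` if `ζ'(ρ) = 0`.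
2. Unconditionally there is `c > 0` such that for all large `x` and both `s` the window contains `y` with
   `s M(y) ≥ c √y`.
3. If for every `ε > 0` there are arbitrarily large `x` such that `s M(y) ≤ ε √y log y` on the whole window, then
   the Riemann Hypothesis holds and every zero in the critical strip is simple.  In particular this holds when
   `s M(y) ≤ K F(y)` on the window `[x, x log x]` for one `K`, one sign `s` and arbitrarily large `x`.
4. In particular a finite upper limit of `M / F`, and also a finite lower limit of it, implies the Riemann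
   Hypothesis and the simplicity of the zeros: each one of the two equalities of the question does.
5. `log (sup_{[x, x log x]} s M) / log x → Θ` for both signs.
-/

set_option autoImplicit false

open Filter Topology Set

namespace Pool.Agent.Results.MP_a499ba_nt.EveryWindow

/-- `M(y) = ∑_{n ≤ y} μ(n)`. -/
noncomputable def M (y : ℝ) : ℝ := ∑ n ∈ Finset.Icc 1 ⌊y⌋₊, ((ArithmeticFunction.moebius n : ℤ) : ℝ)

/-- `F(y) = √y (log log log y)^{5/4}`. -/
noncomputable def F (y : ℝ) : ℝ := y ^ (1 / 2 : ℝ) * Real.log (Real.log (Real.log y)) ^ (5 / 4 : ℝ)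

/-- The supremum of the real parts of the zeros of `ζ` in the critical strip. -/
noncomputable def Theta : ℝ := sSup {b : ℝ | ∃ ρ : ℂ, riemannZeta ρ = 0 ∧ 0 < ρ.re ∧ ρ.re < 1 ∧ ρ.re = b}

theorem theta_bdd : BddAbove {b : ℝ | ∃ ρ : ℂ, riemannZeta ρ = 0 ∧ 0 < ρ.re ∧ ρ.re < 1 ∧ ρ.re = b} := by
  refine ⟨1, ?_⟩
  rintro b ⟨ρ, -, -, h, rfl⟩
  exact h.le

theorem theta_le_one : Theta ≤ 1 := by
  obtain ⟨ρ, hz, h0, h1⟩ := H313.TK.exists_zero
  refine csSup_le (s := {b : ℝ | ∃ ρ : ℂ, riemannZeta ρ = 0 ∧ 0 < ρ.re ∧ ρ.re < 1 ∧ ρ.re = b})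
    ⟨ρ.re, ρ, hz, by linarith, h1, rfl⟩ ?_
  rintro b ⟨ρ, -, -, h, rfl⟩
  exact h.le

theorem half_le_theta : 1 / 2 ≤ Theta := by
  obtain ⟨ρ, hz, h0, h1⟩ := H313.TK.exists_zero
  exact h0.trans (le_csSup theta_bdd ⟨ρ, hz, by linarith, h1, rfl⟩)

theorem theta_free : ∀ s : ℂ, Theta < s.re → Pool.Agent.H295R2.Zs s ≠ 0 := by
  intro s hs hz
  have h0 : 0 < s.re := lt_of_lt_of_le (by norm_num) (half_le_theta.trans hs.le)
  have h1 : s.re < 1 := by
    by_contra h
    exact Pool.Agent.H295R2.Zs_ne_zero_of_one_le (not_lt.mp h) hz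
  have hne : s ≠ 1 := by
    rintro rfl
    simp at h1
  rw [← Pool.Agent.H295R2.Zs_eq hne] at hz
  rcases mul_eq_zero.mp hz with h | h
  · exact absurd (sub_eq_zero.mp h) hne
  · have : s.re ≤ Theta := le_csSup theta_bdd ⟨s, h, h0, h1, rfl⟩
    linarith

theorem near_theta {e : ℝ} (he : 0 < e) : ∃ ρ : ℂ, riemannZeta ρ = 0 ∧ 1 / 2 ≤ ρ.re ∧ ρ.re < 1 ∧ Theta - e < ρ.re := by
  obtain ⟨ρ0, hz0, h00, h01⟩ := H313.TK.exists_zero
  obtain ⟨b, ⟨ρ, hz, h0, h1, rfl⟩, hb⟩ := exists_lt_of_lt_csSup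
    (s := {b : ℝ | ∃ ρ : ℂ, riemannZeta ρ = 0 ∧ 0 < ρ.re ∧ ρ.re < 1 ∧ ρ.re = b})
    ⟨ρ0.re, ρ0, hz0, by linarith, h01, rfl⟩ (show Theta - e < Theta by linarith)
  rcases le_total (1 / 2) ρ.re with h | h
  · exact ⟨ρ, hz, h, h1, hb⟩
  · refine ⟨1 - ρ, H313.TK.refl_zero ρ hz h0 h1, ?_, ?_, ?_⟩
    · simp; linarith
    · simp; linarith
    · simp; linarith

theorem mertens_sup {e : ℝ} (he : 0 < e) :
    ∃ σ : ℝ, 0 ≤ σ ∧ σ ≤ Theta + e ∧ ∃ C > 0, ∀ y : ℝ, 1 ≤ y → |M y| ≤ C * y ^ σ := by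
  have h1 := half_le_theta
  rcases theta_le_one.eq_or_lt with h | h
  · refine ⟨1, by norm_num, by linarith, 1, one_pos, fun y hy => ?_⟩
    rw [Real.rpow_one, one_mul]
    exact Pool.Agent.H295R2.abs_Mx_le (by linarith)
  · set σ : ℝ := min (Theta + e) 1 with hσ
    have hlt : Theta < σ := by rw [hσ]; apply lt_min <;> linarith
    have hle1 : σ ≤ 1 := min_le_right _ _
    obtain ⟨C, hC0, hC⟩ := Pool.Agent.H295R2.mertens_bound (θ := Theta) (σ := σ) (by linarith) theta_free hlt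
      (by linarith)
    exact ⟨σ, by linarith, min_le_left _ _, C, hC0, hC⟩

theorem signs (ρ : ℂ) (hz : riemannZeta ρ = 0) (h0 : 1 / 2 ≤ ρ.re) (h1 : ρ.re < 1) :
    ∃ c : ℝ, 0 < c ∧ ∀ᶠ x : ℝ in atTop, ∀ s : ℝ, s = 1 ∨ s = -1 →
      ∃ y ∈ Icc x (x * Real.log x), c * y ^ ρ.re ≤ s * M y := H313.TK.signs ρ hz h0 h1

theorem signs2 (ρ : ℂ) (hz : riemannZeta ρ = 0) (hz' : deriv riemannZeta ρ = 0) (h0 : 1 / 2 ≤ ρ.re)
    (h1 : ρ.re < 1) :
    ∃ c : ℝ, 0 < c ∧ ∀ᶠ x : ℝ in atTop, ∀ s : ℝ, s = 1 ∨ s = -1 →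
      ∃ y ∈ Icc x (x * Real.log x), c * (y ^ ρ.re * Real.log y) ≤ s * M y := H313.TK.signs2 ρ hz hz' h0 h1

/-- One-sided `o(√y log y)` on arbitrarily far windows gives RH and simplicity. -/
theorem cost {s : ℝ} (hs : s = 1 ∨ s = -1)
    (h : ∀ ε : ℝ, 0 < ε → ∃ᶠ x : ℝ in atTop, ∀ y ∈ Icc x (x * Real.log x), s * M y ≤ ε * (y ^ (1 / 2 : ℝ) * Real.log y))
    (ρ : ℂ) (hz : riemannZeta ρ = 0) (h0 : 0 < ρ.re) (h1 : ρ.re < 1) :
    ρ.re = 1 / 2 ∧ deriv riemannZeta ρ ≠ 0 := by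
  -- no zero to the right of the critical line
  have key : ∀ ρ : ℂ, riemannZeta ρ = 0 → 1 / 2 < ρ.re → ρ.re < 1 → False := by
    intro ρ hz h0 h1
    obtain ⟨c, hc, hev⟩ := signs ρ hz h0.le h1
    set a : ℝ := ρ.re - 1 / 2 with ha
    have ha0 : 0 < a := by rw [ha]; linarith
    have hlo : ∀ᶠ y : ℝ in atTop, Real.log y < c * y ^ a := by
      have h2 := (isLittleO_log_rpow_atTop ha0).bound (show 0 < c / 2 by linarith)
      filter_upwards [h2, eventually_gt_atTop 1] with y hy hy1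
      have hy0 : 0 < y := by linarith
      rw [Real.norm_of_nonneg (Real.log_nonneg hy1.le), Real.norm_of_nonneg (by positivity)] at hy
      have : 0 < y ^ a := by positivity
      nlinarith
    obtain ⟨Y, hY⟩ := eventually_atTop.mp hlo
    obtain ⟨x, hx1, hx2, hx3⟩ := ((h 1 one_pos).and_eventually (hev.and (eventually_ge_atTop (max Y 2)))).exists
    obtain ⟨y, hy, hy2⟩ := hx2 s hs
    have h4 := hx1 y hy
    have hYy : Y ≤ y := (le_max_left _ _).trans (hx3.trans hy.1)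
    have hy1 : 2 ≤ y := (le_max_right _ _).trans (hx3.trans hy.1)
    have hy0 : 0 < y := by linarith
    have h5 := hY y hYy
    have h6 : y ^ ρ.re = y ^ (1 / 2 : ℝ) * y ^ a := by
      rw [← Real.rpow_add hy0]; congr 1; rw [ha]; ring
    have h7 : 0 < y ^ (1 / 2 : ℝ) := by positivity
    rw [h6] at hy2
    have h8 : y ^ (1 / 2 : ℝ) * Real.log y < y ^ (1 / 2 : ℝ) * (c * y ^ a) := mul_lt_mul_of_pos_left h5 h7
    nlinarith
  have hre : ρ.re = 1 / 2 := by
    rcases lt_trichotomy ρ.re (1 / 2) with h2 | h2 | h2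
    · exfalso
      exact key (1 - ρ) (H313.TK.refl_zero ρ hz h0 h1) (by simp; linarith) (by simp; linarith)
    · exact h2
    · exact (key ρ hz h2 h1).elim
  refine ⟨hre, fun hz' => ?_⟩
  obtain ⟨c, hc, hev⟩ := signs2 ρ hz hz' hre.ge h1
  obtain ⟨x, hx1, hx2, hx3⟩ :=
    ((h (c / 2) (by linarith)).and_eventually (hev.and (eventually_ge_atTop (2 : ℝ)))).exists
  obtain ⟨y, hy, hy2⟩ := hx2 s hs
  have h4 := hx1 y hy
  have hy1 : 2 ≤ y := hx3.trans hy.1
  have hy0 : 0 < y := by linarith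
  rw [hre] at hy2
  have h7 : 0 < y ^ (1 / 2 : ℝ) := by positivity
  have h8 : 0 < Real.log y := Real.log_pos (by linarith)
  have h9 : 0 < y ^ (1 / 2 : ℝ) * Real.log y := by positivity
  nlinarith

theorem F_small (K ε : ℝ) (hε : 0 < ε) : ∀ᶠ y : ℝ in atTop, K * F y ≤ ε * (y ^ (1 / 2 : ℝ) * Real.log y) := by
  -- `(log log log y)^{5/4} = o(log y)`
  have h1 : Tendsto (fun y : ℝ => Real.log (Real.log y)) atTop atTop :=
    Real.tendsto_log_atTop.comp Real.tendsto_log_atTop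
  have h2 := (isLittleO_log_rpow_rpow_atTop (s := 1) (5 / 4) one_pos).bound
    (show 0 < ε / (|K| + 1) by positivity)
  have h3 := h1.eventually h2
  have h4 := h1.eventually (eventually_ge_atTop (Real.exp 1))
  filter_upwards [h3, h4, eventually_ge_atTop 2] with y hy hy2 hy3
  have hy0 : 0 < y := by linarith
  have hL0 : 0 < Real.log y := Real.log_pos (by linarith)
  have hLL : 0 < Real.log (Real.log y) := (Real.exp_pos 1).trans_le hy2
  have hLLL : 0 ≤ Real.log (Real.log (Real.log y)) := by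
    apply Real.log_nonneg
    exact (Real.one_le_exp zero_le_one).trans hy2
  rw [Real.norm_of_nonneg (by positivity), Real.norm_of_nonneg (by positivity), Real.rpow_one] at hy
  have h5 : Real.log (Real.log y) ≤ Real.log y := (Real.log_le_sub_one_of_pos hL0).trans (by linarith)
  have h6 : 0 < y ^ (1 / 2 : ℝ) := by positivity
  have h7 : 0 ≤ Real.log (Real.log (Real.log y)) ^ (5 / 4 : ℝ) := by positivity
  have h8 : (|K| + 1) * Real.log (Real.log (Real.log y)) ^ (5 / 4 : ℝ) ≤ ε * Real.log y := by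
    have hp : 0 < |K| + 1 := by positivity
    calc (|K| + 1) * Real.log (Real.log (Real.log y)) ^ (5 / 4 : ℝ)
        ≤ (|K| + 1) * (ε / (|K| + 1) * Real.log (Real.log y)) := by gcongr
      _ = ε * Real.log (Real.log y) := by field_simp
      _ ≤ ε * Real.log y := by gcongr
  have h9 : K * Real.log (Real.log (Real.log y)) ^ (5 / 4 : ℝ) ≤ ε * Real.log y := by
    refine le_trans ?_ h8
    exact mul_le_mul_of_nonneg_right ((le_abs_self K).trans (by linarith)) h7
  unfold F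
  calc K * (y ^ (1 / 2 : ℝ) * Real.log (Real.log (Real.log y)) ^ (5 / 4 : ℝ))
      = y ^ (1 / 2 : ℝ) * (K * Real.log (Real.log (Real.log y)) ^ (5 / 4 : ℝ)) := by ring
    _ ≤ y ^ (1 / 2 : ℝ) * (ε * Real.log y) := by gcongr
    _ = _ := by ring

/-- The exponent of the largest value of `s M` on the window is `Θ`. -/
theorem exponent {s : ℝ} (hs : s = 1 ∨ s = -1) :
    Tendsto (fun x : ℝ => Real.log (sSup ((fun y => s * M y) '' Icc x (x * Real.log x))) / Real.log x) atTop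
      (𝓝 Theta) := by
  have habs : |s| = 1 := by rcases hs with rfl | rfl <;> simp
  rw [Metric.tendsto_nhds]
  intro ε hε
  obtain ⟨σ, hσ0, hσ, C, hC, hM⟩ := mertens_sup (e := ε / 4) (by linarith)
  obtain ⟨ρ, hz, h0, h1, hρ⟩ := near_theta (e := ε / 4) (by linarith)
  obtain ⟨c, hc, hev⟩ := signs ρ hz h0 h1
  have hlogx : Tendsto (fun x : ℝ => Real.log x) atTop atTop := Real.tendsto_log_atTop
  have hE1 : ∀ᶠ x : ℝ in atTop, |Real.log C| ≤ ε / 4 * Real.log x := by
    have := (hlogx.const_mul_atTop (show 0 < ε / 4 by linarith)).eventually (eventually_ge_atTop |Real.log C|)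
    exact this
  have hE2 : ∀ᶠ x : ℝ in atTop, |Real.log c| ≤ ε / 4 * Real.log x := by
    have := (hlogx.const_mul_atTop (show 0 < ε / 4 by linarith)).eventually (eventually_ge_atTop |Real.log c|)
    exact this
  have hE3 : ∀ᶠ x : ℝ in atTop, σ * Real.log (Real.log x) ≤ ε / 4 * Real.log x := by
    have h2 := (Real.isLittleO_log_id_atTop).bound (show 0 < ε / (4 * (σ + 1)) by positivity)
    filter_upwards [hlogx.eventually h2, hlogx.eventually (eventually_ge_atTop 1)] with x hx hx1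
    have hx0 : 0 ≤ Real.log (Real.log x) := Real.log_nonneg hx1
    rw [Real.norm_of_nonneg hx0, id, Real.norm_of_nonneg (by linarith)] at hx
    calc σ * Real.log (Real.log x) ≤ (σ + 1) * Real.log (Real.log x) := by nlinarith
      _ ≤ (σ + 1) * (ε / (4 * (σ + 1)) * Real.log x) := by gcongr
      _ = ε / 4 * Real.log x := by field_simp
  filter_upwards [hev, hE1, hE2, hE3, eventually_ge_atTop (Real.exp 1)] with x hx e1 e2 e3 hx1
  have hx0 : 0 < x := (Real.exp_pos 1).trans_le hx1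
  have hl1 : 1 ≤ Real.log x := by rwa [Real.le_log_iff_exp_le hx0]
  have hl0 : 0 < Real.log x := by linarith
  have hx2 : 1 ≤ x := (Real.one_le_exp zero_le_one).trans hx1
  set S : ℝ := sSup ((fun y => s * M y) '' Icc x (x * Real.log x)) with hS
  have hub : ∀ z ∈ (fun y => s * M y) '' Icc x (x * Real.log x), z ≤ C * (x * Real.log x) ^ σ := by
    rintro z ⟨y, hy, rfl⟩
    have hy1 : 1 ≤ y := hx2.trans hy.1
    calc s * M y ≤ |s * M y| := le_abs_self _
      _ = |M y| := by rw [abs_mul, habs, one_mul]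
      _ ≤ C * y ^ σ := hM y hy1
      _ ≤ C * (x * Real.log x) ^ σ := by
          have := Real.rpow_le_rpow (by linarith) hy.2 hσ0
          gcongr
  have hne : ((fun y => s * M y) '' Icc x (x * Real.log x)).Nonempty :=
    ⟨_, x, ⟨le_rfl, by nlinarith⟩, rfl⟩
  have hSle : S ≤ C * (x * Real.log x) ^ σ := csSup_le hne hub
  obtain ⟨y, hy, hy2⟩ := hx s hs
  have hSge : c * x ^ ρ.re ≤ S := by
    have h3 : s * M y ≤ S := le_csSup ⟨_, hub⟩ ⟨y, hy, rfl⟩
    have h4 : c * x ^ ρ.re ≤ c * y ^ ρ.re := by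
      have := Real.rpow_le_rpow hx0.le hy.1 (by linarith : 0 ≤ ρ.re)
      gcongr
    linarith
  have hS0 : 0 < S := lt_of_lt_of_le (by positivity) hSge
  have hup : Real.log S ≤ Real.log C + σ * (Real.log x + Real.log (Real.log x)) := by
    have h5 : 0 < x * Real.log x := by positivity
    calc Real.log S ≤ Real.log (C * (x * Real.log x) ^ σ) := Real.log_le_log hS0 hSle
      _ = _ := by
        rw [Real.log_mul hC.ne' (by positivity), Real.log_rpow h5, Real.log_mul hx0.ne' hl0.ne']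
  have hlow : Real.log c + ρ.re * Real.log x ≤ Real.log S := by
    calc Real.log c + ρ.re * Real.log x = Real.log (c * x ^ ρ.re) := by
          rw [Real.log_mul hc.ne' (by positivity), Real.log_rpow hx0]
      _ ≤ Real.log S := Real.log_le_log (by positivity) hSge
  have e1' := (abs_le.mp e1)
  have e2' := (abs_le.mp e2)
  rw [Real.dist_eq, abs_lt]
  constructor
  · have h6 : Theta - ε / 2 ≤ Real.log S / Real.log x := by
      rw [le_div_iff₀ hl0]
      have : (Theta - ε / 4) * Real.log x ≤ ρ.re * Real.log x := by gcongr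
      nlinarith
    linarith
  · have h6 : Real.log S / Real.log x ≤ Theta + 3 * ε / 4 := by
      rw [div_le_iff₀ hl0]
      have : σ * Real.log x ≤ (Theta + ε / 4) * Real.log x := by gcongr
      nlinarith
    linarith

theorem F_pos : ∀ᶠ y : ℝ in atTop, 0 < F y := by
  have h1 : Tendsto (fun y : ℝ => Real.log (Real.log (Real.log y))) atTop atTop :=
    Real.tendsto_log_atTop.comp (Real.tendsto_log_atTop.comp Real.tendsto_log_atTop)
  filter_upwards [h1.eventually (eventually_gt_atTop 0), eventually_gt_atTop 0] with y h2 h3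
  unfold F
  positivity

/-- A finite upper limit of `s M / F` bounds `s M` by `K F` near infinity. -/
theorem of_limsup {g : ℝ → ℝ} (h : limsup (fun x : ℝ => ((g x / F x : ℝ) : EReal)) atTop < ⊤) :
    ∃ K : ℝ, ∀ᶠ y : ℝ in atTop, g y ≤ K * F y := by
  obtain ⟨b, hb1, hb2⟩ := exists_between h
  have h2 := eventually_lt_of_limsup_lt hb1
  refine ⟨b.toReal, ?_⟩
  filter_upwards [h2, F_pos] with y hy hF
  have h3 : ((g y / F y : ℝ) : EReal) ≤ (b.toReal : EReal) := by
    refine hy.le.trans ?_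
    exact EReal.le_coe_toReal hb2.ne
  have h4 : g y / F y ≤ b.toReal := by exact_mod_cast h3
  rwa [div_le_iff₀ hF] at h4

theorem of_bound {s : ℝ} (hs : s = 1 ∨ s = -1) {K : ℝ}
    (h : ∃ᶠ x : ℝ in atTop, ∀ y ∈ Icc x (x * Real.log x), s * M y ≤ K * F y)
    (ρ : ℂ) (hz : riemannZeta ρ = 0) (h0 : 0 < ρ.re) (h1 : ρ.re < 1) :
    ρ.re = 1 / 2 ∧ deriv riemannZeta ρ ≠ 0 := by
  refine cost hs (fun ε hε => ?_) ρ hz h0 h1
  obtain ⟨Y, hY⟩ := eventually_atTop.mp (F_small K ε hε)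
  refine (h.and_eventually (eventually_ge_atTop Y)).mono fun x hx y hy => ?_
  exact (hx.1 y hy).trans (hY y (hx.2.trans hy.1))

theorem of_eventually {s : ℝ} (hs : s = 1 ∨ s = -1) {K : ℝ} (h : ∀ᶠ y : ℝ in atTop, s * M y ≤ K * F y)
    (ρ : ℂ) (hz : riemannZeta ρ = 0) (h0 : 0 < ρ.re) (h1 : ρ.re < 1) :
    ρ.re = 1 / 2 ∧ deriv riemannZeta ρ ≠ 0 := by
  obtain ⟨Y, hY⟩ := eventually_atTop.mp h
  refine of_bound hs (K := K) ?_ ρ hz h0 h1
  refine (eventually_atTop.mpr ⟨Y, fun x hx y hy => hY y (hx.trans hy.1)⟩).frequently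

theorem result :
    -- 1. every zero forces both signs in every window
    (∀ ρ : ℂ, riemannZeta ρ = 0 → 1 / 2 ≤ ρ.re → ρ.re < 1 →
      ∃ c : ℝ, 0 < c ∧ ∀ᶠ x : ℝ in atTop, ∀ s : ℝ, s = 1 ∨ s = -1 →
        (∃ y ∈ Icc x (x * Real.log x), c * y ^ ρ.re ≤ s * M y) ∧
        (deriv riemannZeta ρ = 0 → ∃ y ∈ Icc x (x * Real.log x), c * (y ^ ρ.re * Real.log y) ≤ s * M y)) ∧
    -- 2. unconditionally
    (∃ c : ℝ, 0 < c ∧ ∀ᶠ x : ℝ in atTop, ∀ s : ℝ, s = 1 ∨ s = -1 →
        ∃ y ∈ Icc x (x * Real.log x), c * y ^ (1 / 2 : ℝ) ≤ s * M y) ∧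
    -- 3. one-sided bounds on arbitrarily far windows imply RH and the simplicity of the zeros
    (∀ s : ℝ, s = 1 ∨ s = -1 →
      ((∀ ε : ℝ, 0 < ε → ∃ᶠ x : ℝ in atTop, ∀ y ∈ Icc x (x * Real.log x),
          s * M y ≤ ε * (y ^ (1 / 2 : ℝ) * Real.log y)) ∨
        (∃ K : ℝ, ∃ᶠ x : ℝ in atTop, ∀ y ∈ Icc x (x * Real.log x), s * M y ≤ K * F y)) →
      ∀ ρ : ℂ, riemannZeta ρ = 0 → 0 < ρ.re → ρ.re < 1 → ρ.re = 1 / 2 ∧ deriv riemannZeta ρ ≠ 0) ∧
    -- 4. so do a finite upper limit, and a finite lower limit, of `M / F`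
    ((limsup (fun x : ℝ => ((M x / F x : ℝ) : EReal)) atTop < ⊤ ∨
        ⊥ < liminf (fun x : ℝ => ((M x / F x : ℝ) : EReal)) atTop) →
      ∀ ρ : ℂ, riemannZeta ρ = 0 → 0 < ρ.re → ρ.re < 1 → ρ.re = 1 / 2 ∧ deriv riemannZeta ρ ≠ 0) ∧
    -- 5. the exponent of both one-sided maxima on the windows is `Θ`
    (∀ s : ℝ, s = 1 ∨ s = -1 →
      Tendsto (fun x : ℝ => Real.log (sSup ((fun y => s * M y) '' Icc x (x * Real.log x))) / Real.log x) atTop
        (𝓝 Theta)) := by
  refine ⟨?_, ?_, ?_, ?_, fun s hs => exponent hs⟩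
  · intro ρ hz h0 h1
    obtain ⟨c, hc, h⟩ := signs ρ hz h0 h1
    by_cases hz' : deriv riemannZeta ρ = 0
    · obtain ⟨c', hc', h'⟩ := signs2 ρ hz hz' h0 h1
      refine ⟨min c c', lt_min hc hc', ?_⟩
      filter_upwards [h, h', eventually_ge_atTop 1] with x hx hx' hx1 s hs
      obtain ⟨y, hy, hy2⟩ := hx s hs
      obtain ⟨z, hz, hz2⟩ := hx' s hs
      have hy1 : 1 ≤ y := hx1.trans hy.1
      have hz1 : 1 ≤ z := hx1.trans hz.1
      refine ⟨⟨y, hy, le_trans ?_ hy2⟩, fun _ => ⟨z, hz, le_trans ?_ hz2⟩⟩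
      · have : 0 < y ^ ρ.re := by positivity
        exact mul_le_mul_of_nonneg_right (min_le_left _ _) this.le
      · have h3 : 0 ≤ z ^ ρ.re * Real.log z := mul_nonneg (by positivity) (Real.log_nonneg hz1)
        exact mul_le_mul_of_nonneg_right (min_le_right _ _) h3
    · refine ⟨c, hc, ?_⟩
      filter_upwards [h] with x hx s hs
      exact ⟨hx s hs, fun h => absurd h hz'⟩
  · obtain ⟨ρ, hz, h0, h1⟩ := H313.TK.exists_zero
    obtain ⟨c, hc, h⟩ := signs ρ hz h0 h1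
    refine ⟨c, hc, ?_⟩
    filter_upwards [h, eventually_ge_atTop 1] with x hx hx1 s hs
    obtain ⟨y, hy, hy2⟩ := hx s hs
    refine ⟨y, hy, le_trans ?_ hy2⟩
    have := Real.rpow_le_rpow_of_exponent_le (hx1.trans hy.1) h0
    gcongr
  · rintro s hs (h | ⟨K, h⟩) ρ hz h0 h1
    · exact cost hs h ρ hz h0 h1
    · exact of_bound hs h ρ hz h0 h1
  · rintro (h | h) ρ hz h0 h1
    · obtain ⟨K, hK⟩ := of_limsup h
      exact of_eventually (s := 1) (Or.inl rfl) (K := K) (by simpa using hK) ρ hz h0 h1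
    · have h2 : limsup (fun x : ℝ => (((-M x) / F x : ℝ) : EReal)) atTop < ⊤ := by
        have e : (fun x : ℝ => (((-M x) / F x : ℝ) : EReal)) = -(fun x : ℝ => ((M x / F x : ℝ) : EReal)) := by
          ext x
          rw [neg_div, EReal.coe_neg]
          rfl
        rw [e, EReal.limsup_neg]
        rw [lt_top_iff_ne_top]
        intro h3
        rw [EReal.neg_eq_top_iff] at h3
        exact absurd h3 h.ne'
      obtain ⟨K, hK⟩ := of_limsup h2
      exact of_eventually (s := -1) (Or.inr rfl) (K := K) (by simpa using hK) ρ hz h0 h1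

end Pool.Agent.Results.MP_a499ba_nt.EveryWindow
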