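import Pool.Agent.Q212.WS.D

/-!
# What a one-sided bound for `M` near one point says: Fourier integrals, mean values, sharp constants in every window

`M(y) = ∑_{n ≤ y} μ(n)`, `F(y) = √y (log log log y)^{5/4}`; for real `l` let `c(l) = 1/(ρ ζ'(ρ))` if `ρ = 1/2 + il` is a
zero of `ζ` and `c(l) = 0` otherwise, and `J(l, x) = ∫_1^x M(y) y^{-3/2-il} dy`.  Unconditionally:

1. If `1/2 + il` is not a multiple zero, there is `C` such that for all `x ≥ e`, `K ≥ 1` and each sign `s`: if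
   `s M(y) ≤ K √y` for `x/√log x ≤ y ≤ x √log x`, then `|J(l, x) - c(l) log x| ≤ C K`.
2. Under the same one-sided hypothesis at `x`, `∫_x^{ex} |M(y)| y^{-3/2} dy ≤ C K`.
3. If for one sign `s` the upper limit of `s M/F` is finite, then `J(l, x) = c(l) log x + O((log log log x)^{5/4})` for every
   real `l`, and `∫_x^{ex} |M(y)| y^{-3/2} dy = O((log log log x)^{5/4})`.
4. For every zero `ρ` in the critical strip and `ε > 0` there is `A` such that for all large `x` and both signs the window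
   `[x, A x log x]` contains `y` with `s M(y) ≥ (1/|ρ ζ'(ρ)| - ε) √y`.
5. More generally the same with `s Re ∑ a(l) c(l)` in the place of `1/|ρ ζ'(ρ)|`, for every finite sum
   `p(u) = Re ∑ a(l) e^{-ilu}` which is `≥ 0` for all `u`, with `Re a(0) = 1`.
-/

set_option autoImplicit false

open Filter Set Complex

namespace Pool.Agent.Results.MP_a499ba_nt.WindowSpectrum

/-- `M(y) = ∑_{n ≤ y} μ(n)`. -/
noncomputable def M (y : ℝ) : ℝ := ∑ n ∈ Finset.Icc 1 ⌊y⌋₊, ((ArithmeticFunction.moebius n : ℤ) : ℝ)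

/-- `F(y) = √y (log log log y)^{5/4}`. -/
noncomputable def F (y : ℝ) : ℝ := Real.sqrt y * Real.log (Real.log (Real.log y)) ^ (5 / 4 : ℝ)

open Classical in
/-- `c(l) = 1/(ρ ζ'(ρ))` if `ρ = 1/2 + il` is a zero of `ζ`, and `c(l) = 0` otherwise. -/
noncomputable def c (l : ℝ) : ℂ := if riemannZeta (1 / 2 + l * I) = 0 then
  1 / ((1 / 2 + l * I) * deriv riemannZeta (1 / 2 + l * I)) else 0

/-- `J(l, x) = ∫_1^x M(y) y^{-3/2-il} dy`. -/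
noncomputable def J (l x : ℝ) : ℂ := ∫ y in (1:ℝ)..x, (M y : ℂ) * (y : ℂ) ^ (-(3 / 2 : ℂ) - l * I)

/-- The one-sided bound `s M(y) ≤ K √y` for `x/√log x ≤ y ≤ x √log x`. -/
def Near (s K x : ℝ) : Prop :=
  ∀ y ∈ Icc (x / Real.sqrt (Real.log x)) (x * Real.sqrt (Real.log x)), s * M y ≤ K * Real.sqrt y

/-- sums over a finite set of frequencies -/
theorem poly {s : ℝ} (hs : s = 1 ∨ s = -1) (L : Finset ℝ) (a : ℝ → ℂ)
    (ha : ∀ u : ℝ, 0 ≤ (∑ l ∈ L, a l * exp (-(l * I) * u)).re) (h0 : (0:ℝ) ∈ L) (h1 : (a 0).re = 1) {ε : ℝ}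
    (hε : 0 < ε) : ∃ A : ℝ, 0 < A ∧ ∀ᶠ x : ℝ in atTop, ∃ y ∈ Icc x (A * x * Real.log x),
      (s * (∑ l ∈ L, a l * c l).re - ε) * Real.sqrt y ≤ s * M y := by
  by_contra hcon
  push Not at hcon
  have hw : ∀ A : ℝ, 0 < A → ∃ᶠ x : ℝ in atTop, ∀ y ∈ Icc x (A * x * Real.log x),
      s * H313.TK.MM y ≤ (s * (∑ l ∈ L, a l * c l).re - ε) * Real.sqrt y := fun A hA =>
    (hcon A hA).mono fun x hx y hy => (hx y hy).le
  have hsimp : ∀ l : ℝ, riemannZeta (1 / 2 + l * I) = 0 → deriv riemannZeta (1 / 2 + l * I) ≠ 0 := by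
    intro l hz
    have hre : (1 / 2 + l * I : ℂ).re = 1 / 2 := by simp
    exact (Q212.WS.sparse_cost hs hw _ hz (by rw [hre]; norm_num) (by rw [hre]; norm_num)).2
  have h := Q212.WS.sharp hs _ hsimp (fun T hT => Q212.WS.sparse_log hw T hT) L a ha
  have h2 : (∑ l ∈ L, a l * (if l = 0 then (1:ℂ) else 0)).re = 1 := by
    simp only [mul_ite, mul_one, mul_zero, Finset.sum_ite_eq', h0, if_true, h1]
  rw [h2, mul_one] at h
  have h3 : s * (∑ l ∈ L, a l * Q212.WS.cf l).re = s * (∑ l ∈ L, a l * c l).re := rfl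
  rw [h3] at h
  linarith

/-- one zero -/
theorem one {s : ℝ} (hs : s = 1 ∨ s = -1) (ρ : ℂ) (hz : riemannZeta ρ = 0) (h0 : 0 < ρ.re) (h1 : ρ.re < 1) {ε : ℝ}
    (hε : 0 < ε) : ∃ A : ℝ, 0 < A ∧ ∀ᶠ x : ℝ in atTop, ∃ y ∈ Icc x (A * x * Real.log x),
      (1 / ‖ρ * deriv riemannZeta ρ‖ - ε) * Real.sqrt y ≤ s * M y := by
  by_contra hcon
  push Not at hcon
  have hw : ∀ A : ℝ, 0 < A → ∃ᶠ x : ℝ in atTop, ∀ y ∈ Icc x (A * x * Real.log x),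
      s * H313.TK.MM y ≤ (1 / ‖ρ * deriv riemannZeta ρ‖ - ε) * Real.sqrt y := fun A hA =>
    (hcon A hA).mono fun x hx y hy => (hx y hy).le
  have hsimp : ∀ l : ℝ, riemannZeta (1 / 2 + l * I) = 0 → deriv riemannZeta (1 / 2 + l * I) ≠ 0 := by
    intro l hz
    have hre : (1 / 2 + l * I : ℂ).re = 1 / 2 := by simp
    exact (Q212.WS.sparse_cost hs hw _ hz (by rw [hre]; norm_num) (by rw [hre]; norm_num)).2
  have hre := (Q212.WS.sparse_cost hs hw ρ hz h0 h1).1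
  have hρ : (1 / 2 + (ρ.im : ℂ) * I) = ρ := by
    apply Complex.ext
    · simp [hre]
    · simp
  have h := Q212.WS.sharp_one hs _ hsimp (fun T hT => Q212.WS.sparse_log hw T hT) ρ.im
  unfold Q212.WS.cf at h
  rw [hρ, if_pos hz, norm_div, norm_one] at h
  linarith

/-- both signs with a common `A` -/
theorem both {P : ℝ → ℝ → Prop}
    (h : ∀ s : ℝ, s = 1 ∨ s = -1 → ∃ A : ℝ, 0 < A ∧ ∀ᶠ x : ℝ in atTop, ∃ y ∈ Icc x (A * x * Real.log x), P s y) :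
    ∃ A : ℝ, 0 < A ∧ ∀ᶠ x : ℝ in atTop, ∀ s : ℝ, s = 1 ∨ s = -1 → ∃ y ∈ Icc x (A * x * Real.log x), P s y := by
  obtain ⟨A1, hA1, h1⟩ := h 1 (Or.inl rfl)
  obtain ⟨A2, hA2, h2⟩ := h (-1) (Or.inr rfl)
  refine ⟨max A1 A2, lt_max_of_lt_left hA1, ?_⟩
  filter_upwards [h1, h2, eventually_ge_atTop 1] with x hx1 hx2 hx s hs
  have hl : 0 ≤ Real.log x := Real.log_nonneg hx
  rcases hs with rfl | rfl
  · obtain ⟨y, hy, hP⟩ := hx1
    refine ⟨y, ⟨hy.1, hy.2.trans ?_⟩, hP⟩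
    have := le_max_left A1 A2
    gcongr
  · obtain ⟨y, hy, hP⟩ := hx2
    refine ⟨y, ⟨hy.1, hy.2.trans ?_⟩, hP⟩
    have := le_max_right A1 A2
    gcongr

/-- **One-sided bounds for `M` near one point, and sharp constants in every window `[x, A x log x]`.** -/
theorem result :
    (∀ l : ℝ, (riemannZeta (1 / 2 + l * I) = 0 → deriv riemannZeta (1 / 2 + l * I) ≠ 0) →
      ∃ C : ℝ, ∀ x : ℝ, Real.exp 1 ≤ x → ∀ s : ℝ, s = 1 ∨ s = -1 → ∀ K : ℝ, 1 ≤ K → Near s K x →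
        ‖J l x - c l * (Real.log x : ℂ)‖ ≤ C * K) ∧
    (∃ C : ℝ, ∀ x : ℝ, Real.exp 1 ≤ x → ∀ s : ℝ, s = 1 ∨ s = -1 → ∀ K : ℝ, 1 ≤ K → Near s K x →
      ∫ y in x..(Real.exp 1 * x), |M y| * y ^ (-(3 / 2 : ℝ)) ≤ C * K) ∧
    (∀ s : ℝ, s = 1 ∨ s = -1 → (∃ B : ℝ, ∀ᶠ y : ℝ in atTop, s * M y ≤ B * F y) →
      (∀ l : ℝ, ∃ C : ℝ, ∀ᶠ x : ℝ in atTop,
        ‖J l x - c l * (Real.log x : ℂ)‖ ≤ C * Real.log (Real.log (Real.log x)) ^ (5 / 4 : ℝ)) ∧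
      ∃ C : ℝ, ∀ᶠ x : ℝ in atTop, ∫ y in x..(Real.exp 1 * x), |M y| * y ^ (-(3 / 2 : ℝ)) ≤
        C * Real.log (Real.log (Real.log x)) ^ (5 / 4 : ℝ)) ∧
    (∀ ρ : ℂ, riemannZeta ρ = 0 → 0 < ρ.re → ρ.re < 1 → ∀ ε : ℝ, 0 < ε →
      ∃ A : ℝ, 0 < A ∧ ∀ᶠ x : ℝ in atTop, ∀ s : ℝ, s = 1 ∨ s = -1 → ∃ y ∈ Icc x (A * x * Real.log x),
        (1 / ‖ρ * deriv riemannZeta ρ‖ - ε) * Real.sqrt y ≤ s * M y) ∧
    (∀ (L : Finset ℝ) (a : ℝ → ℂ), (∀ u : ℝ, 0 ≤ (∑ l ∈ L, a l * exp (-(l * I) * u)).re) → (0:ℝ) ∈ L → (a 0).re = 1 →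
      ∀ ε : ℝ, 0 < ε →
      ∃ A : ℝ, 0 < A ∧ ∀ᶠ x : ℝ in atTop, ∀ s : ℝ, s = 1 ∨ s = -1 → ∃ y ∈ Icc x (A * x * Real.log x),
        (s * (∑ l ∈ L, a l * c l).re - ε) * Real.sqrt y ≤ s * M y) := by
  refine ⟨fun l hl => ?_, ?_, fun s hs hB => ?_, fun ρ hz h0 h1 ε hε => ?_, fun L a ha h0 h1 ε hε => ?_⟩
  · obtain ⟨C, -, h⟩ := Q212.WS.fourier l hl
    exact ⟨C, h⟩
  · obtain ⟨C, -, h⟩ := Q212.WS.two_sided
    exact ⟨C, h⟩
  · obtain ⟨B, hB⟩ := hB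
    exact ⟨fun l => Q212.WS.gonek_fourier B hs hB l, Q212.WS.gonek_mean B hs hB⟩
  · exact both fun s hs => one hs ρ hz h0 h1 hε
  · exact both fun s hs => poly hs L a ha h0 h1 hε

end Pool.Agent.Results.MP_a499ba_nt.WindowSpectrum
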